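import Pool.Agent.H67.AT.Targets
import Pool.Agent.H67.AT.Ser

/-!
# Row PTO of hat_modules: the series of the stage `stg` satisfy the hypotheses
-/

set_option autoImplicit false

open Finset PowerSeries Pool.Agent.H67.AT

namespace Pool.Agent.H54.AT

namespace PTO

variable {X E Y : Type} [Fintype X] [DecidableEq X] [Fintype E] [DecidableEq E] [Fintype Y]
  [DecidableEq Y] (G : Net X E Y) (k : ℕ)

theorem es_nn (hRTU : T_RTU) (good : ℕ → X → X → Prop) {β : ℝ} (hβ : 0 < β) {f : E → ℝ}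
    (hf : ∀ e, 0 ≤ f e) {L : ℕ} (τ : Idx X L) (e : E) : DNn (es G k good β f τ e) := by
  rcases τ with _ | ⟨l, x, x'⟩
  · refine DNn.add DNn.one ⟨?_, ?_⟩
    · exact PNn.zero
    · exact PNn.C (hf e)
  · refine DNn.lin ?_
    rcases G.lt e with _ | y
    · exact le_rfl
    · exact (hRTU X E Y G k good β l x x' y hβ).2.2.1

theorem es_fst (good : ℕ → X → X → Prop) (β : ℝ) (f : E → ℝ) {L : ℕ} (τ : Idx X L) (e : E) :
    coeff 0 (es G k good β f τ e).fst = 1 := by
  rcases τ with _ | ⟨l, x, x'⟩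
  · simp [es]
  · change coeff 0 (lin _).fst = 1
    rw [coeff_lin]
    rfl

theorem mks_nn {L : ℕ} (τ : Idx X L) (l : ℕ) (x x' : X) : DNn (mks τ l x x') := by
  rcases τ with _ | ⟨l', A, B⟩
  · exact DNn.zero
  · simp only [mks]
    split_ifs
    · exact DNn.eps
    · exact DNn.zero

theorem mks_fst {L : ℕ} (τ : Idx X L) (l : ℕ) (x x' : X) : (mks τ l x x').fst = 0 := by
  rcases τ with _ | ⟨l', A, B⟩
  · rfl
  · simp only [mks]
    split_ifs
    · rfl
    · rfl

/-- lower bound for the series with the weights `rtl` -/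
theorem lower (hQNN : T_QNN) (hQLO : T_QLO) (hRTU : T_RTU) (good : ℕ → X → X → Prop) {β : ℝ}
    (hβ : 0 < β) {f : E → ℝ} (hf : ∀ e, 0 ≤ f e) {L : ℕ} (lv : Fin (L + 1)) (A B : X) (l : ℕ)
    (x x' : X) (hP : 0 < (G.P ^ k ^ l) x x') :
    DLe (lin (ld (rtl G k good β lv A B) (rho G k good β l x x')))
      (qq G k good β f (some (lv, A, B) : Idx X L) l x x') := by
  have hv : ∀ y, 0 ≤ rtl G k good β lv A B y := fun y =>
    (hRTU X E Y G k good β lv A B y hβ).2.2.1
  obtain ⟨q1, q2⟩ := hQNN X E Y G k (es G k good β f (some (lv, A, B) : Idx X L))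
    (mks (some (lv, A, B) : Idx X L)) (es_nn G k hRTU good hβ hf _) (mks_nn _)
  have q3 := q2 (es_fst G k good β f _) (fun l x x' => by rw [mks_fst, map_zero]) l x x' hP
  refine DLe.lin_of (q1 l x x') q3.ge ?_
  refine le_trans ?_ (hQLO X E Y G k (es G k good β f (some (lv, A, B) : Idx X L))
    (mks (some (lv, A, B) : Idx X L)) (rtl G k good β lv A B) hv (es_nn G k hRTU good hβ hf _)
    (mks_nn _) (es_fst G k good β f _) (fun l x x' => by rw [mks_fst, map_zero]) ?_ l x x' hP)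
  · refine Finset.sum_le_sum fun y _ => ?_
    exact mul_le_mul_of_nonneg_left (hRTU X E Y G k good β l x x' y hβ).2.1 (hv y)
  · intro e
    refine le_of_eq ?_
    change _ = coeff 1 (lin _).fst
    rw [coeff_lin]
    rfl

end PTO

open PTO

/-- PTO: the series of the stage `stg` satisfy the hypotheses. -/
theorem pf_PTO (hQNN : T_QNN) (hQLO : T_QLO) (hMU1 : T_MU1) (hRTU : T_RTU) : T_PTO := by
  intro X E Y _ _ _ _ _ _ G k L m g β w₀ good f hβ hw hf hG l hl N ω hgood
  have hP : ∀ j < N, 0 < (G.P ^ k ^ (l + 1)) (ω j) (ω (j + 1)) := fun j hj =>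
    hG.pos (l + 1) hl _ _ (hgood j hj)
  have hq : ∀ (τ : Idx X L) (l : ℕ) (x x' : X), DNn (qq G k good β f τ l x x') := fun τ =>
    (hQNN X E Y G k (es G k good β f τ) (mks τ) (es_nn G k hRTU good hβ hf _) (mks_nn _)).1
  have hdbl : ∀ τ : Idx X L, ∀ j < N, DNn (dbl (∑ s : Fin (k + 1) → X,
      mu G k l (ω j) (ω (j + 1)) s •
        ∏ i : Fin k, qq G k good β f τ l (s i.castSucc) (s i.succ))) := by
    intro τ j hj
    refine DNn.dbl (DNn.sum fun s _ => DNn.smul ?_ (DNn.prod fun i _ => hq τ l _ _))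
    exact ((hMU1 X E Y G k l _ _ (hP j hj)).2 s).1
  have hA : ∀ (τ : Idx X L) (j : ℕ), qq G k good β f τ (l + 1) (ω j) (ω (j + 1)) =
      dbl (∑ s : Fin (k + 1) → X, mu G k l (ω j) (ω (j + 1)) s •
        ∏ i : Fin k, qq G k good β f τ l (s i.castSucc) (s i.succ)) +
        mks τ (l + 1) (ω j) (ω (j + 1)) := fun τ j => rfl
  refine ⟨?_, ?_, ?_, ?_, ?_, ?_⟩
  · intro τ
    rcases τ with _ | τ
    · exact hw
    · exact zero_le_one
  · intro τ j _
    exact hq τ (l + 1) _ _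
  · intro τ r i
    exact hq τ l _ _
  · intro τ j hj r i hr
    have h1 := ((hMU1 X E Y G k l _ _ (hP j hj)).2 r).2 hr
    exact (hQNN X E Y G k (es G k good β f τ) (mks τ) (es_nn G k hRTU good hβ hf _)
      (mks_nn _)).2 (es_fst G k good β f _) (fun l x x' => by rw [mks_fst, map_zero]) l _ _
      (h1.2.2 i)
  · intro τ j hj
    change DLe _ (qq G k good β f τ (l + 1) (ω j) (ω (j + 1)))
    rw [hA]
    exact DLe.add_right (mks_nn _ _ _ _)
  · intro j hj
    refine ⟨some (⟨l + 1, by omega⟩, ω j, ω (j + 1)), rfl, rfl, ?_, ?_, ?_⟩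
    · change DLe _ (qq G k good β f _ (l + 1) (ω j) (ω (j + 1)))
      rw [hA]
      have h1 : mks (some (⟨l + 1, by omega⟩, ω j, ω (j + 1)) : Idx X L) (l + 1) (ω j)
          (ω (j + 1)) = eps := if_pos ⟨rfl, rfl, rfl⟩
      rw [h1]
      exact DLe.add_left (hdbl _ j hj)
    · intro j' hj' _
      exact lower G k hQNN hQLO hRTU good hβ hf (⟨l + 1, by omega⟩ : Fin (L + 1)) (ω j) (ω (j + 1))
        (l + 1) (ω j') (ω (j' + 1)) (hP j' hj')
    · intro j' hj' r i hr
      have h1 := ((hMU1 X E Y G k l _ _ (hP j' hj')).2 r).2 hr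
      exact lower G k hQNN hQLO hRTU good hβ hf (⟨l + 1, by omega⟩ : Fin (L + 1)) (ω j) (ω (j + 1))
        l (r i.castSucc) (r i.succ) (h1.2.2 i)

end Pool.Agent.H54.AT
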