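import Pool.Agent.H67.AT.Targets
import Pool.Agent.H67.AT.Ser

/-!
# Row SND of hat_modules: bound of the second components
-/

set_option autoImplicit false

open Finset PowerSeries Pool.Agent.H67.AT

namespace Pool.Agent.H54.AT

namespace SND

theorem sum_range_mul' {M : Type*} [AddCommMonoid M] (f : ℕ → M) (a b : ℕ) :
    ∑ n ∈ range (a * b), f n = ∑ j ∈ range a, ∑ i ∈ range b, f (j * b + i) := by
  induction a with
  | zero => simp
  | succ a ih =>
    rw [Nat.succ_mul, Finset.sum_range_add, ih, Finset.sum_range_succ]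

theorem P_nonneg {X E Y : Type} [Fintype X] [DecidableEq X] [Fintype E] [DecidableEq Y]
    (G : Net X E Y) (n : ℕ) (x z : X) : 0 ≤ (G.P ^ n) x z := by
  induction n generalizing x z with
  | zero =>
    rw [pow_zero, Matrix.one_apply]
    split_ifs <;> norm_num
  | succ n ih =>
    rw [pow_succ, Matrix.mul_apply]
    refine Finset.sum_nonneg fun w _ => mul_nonneg (ih x w) ?_
    refine Finset.sum_nonneg fun e _ => ?_
    split_ifs
    · exact G.nonneg e
    · exact le_rfl

theorem exps (k l₀ d i j : ℕ) (hi : i < k ^ d) (hj : j < k) :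
    k ^ (l₀ + d) * j + i * k ^ l₀ = (j * k ^ d + i) * k ^ l₀ ∧
    (k ^ d - 1 - i) * k ^ l₀ + k ^ (l₀ + d) * (k - 1 - j) =
      (k ^ (d + 1) - 1 - (j * k ^ d + i)) * k ^ l₀ := by
  constructor
  · ring
  · obtain ⟨u, hu⟩ : ∃ u, k ^ d = i + 1 + u := ⟨k ^ d - (i + 1), by omega⟩
    obtain ⟨v, hv⟩ : ∃ v, k = j + 1 + v := ⟨k - (j + 1), by omega⟩
    have h1 : k ^ d - 1 - i = u := by omega
    have h2 : k - 1 - j = v := by omega
    have h3 : k ^ (d + 1) = j * k ^ d + k ^ d + v * k ^ d := by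
      rw [pow_succ]
      nth_rewrite 2 [hv]
      ring
    have h4 : k ^ (d + 1) - 1 - (j * k ^ d + i) = u + v * k ^ d := by
      rw [h3]
      generalize j * k ^ d = A
      generalize v * k ^ d = B
      omega
    rw [h1, h2, h4, pow_add]
    ring

end SND

open SND

/-- SND: bound of the second components, from the level `l₀` on. -/
theorem pf_SND (hQRC : T_QRC) : T_SND := by
  intro X E Y _ _ _ _ _ _ G k a mk T B l₀ L ha hmk hmk0 hmkz hT hB hF hS
  obtain ⟨r1, r2, r3, r4⟩ := hQRC X E Y G k a mk hmk0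
  have nF : ∀ l, MNn (qF G k a mk l) := by
    intro l
    induction l with
    | zero =>
      intro x z
      rw [r1]
      refine PNn.dblp (PNn.sum fun e _ => ?_)
      split_ifs
      · exact PNn.smul (G.nonneg e) (ha e).1
      · exact PNn.zero
    | succ l ih =>
      intro x z
      rw [r2]
      exact PNn.dblp (MNn.pow ih k x z)
  have nS : ∀ l, MNn (qS G k a mk l) := by
    intro l
    induction l with
    | zero =>
      intro x z
      rw [r3]
      refine PNn.add (PNn.smul (by norm_num) (PNn.sum fun e _ => ?_)) ?_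
      · split_ifs
        · exact PNn.smul (G.nonneg e) (ha e).2
        · exact PNn.zero
      · have h1 := P_nonneg G 1 x z
        rw [pow_one] at h1
        exact PNn.smul h1 (hmk 0 x z).2
    | succ l ih =>
      intro x z
      rw [r4]
      refine PNn.add (PNn.smul (by norm_num) ?_) (PNn.smul (P_nonneg G _ x z) (hmk (l + 1) x z).2)
      exact MNn.sum (fun j _ => MNn.mul (MNn.mul (MNn.pow (nF l) j) ih) (MNn.pow (nF l) _)) x z
  intro d
  induction d with
  | zero =>
    intro _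
    simpa using hS
  | succ d ih =>
    intro hd
    have hd' : l₀ + d ≤ L := by omega
    have h1 := ih hd'
    have h2 := hF (l₀ + d) hd'
    have hTk : MNn (T ^ k ^ (l₀ + d)) := MNn.pow hT _
    have hR : MNn ((2 : ℝ) ^ d • ∑ i ∈ range (k ^ d),
        T ^ (i * k ^ l₀) * B * T ^ ((k ^ d - 1 - i) * k ^ l₀)) :=
      MNn.smul (by positivity) (MNn.sum fun i _ =>
        MNn.mul (MNn.mul (MNn.pow hT _) hB) (MNn.pow hT _))
    have h3 : MLe (∑ j ∈ range k, qF G k a mk (l₀ + d) ^ j * qS G k a mk (l₀ + d) *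
        qF G k a mk (l₀ + d) ^ (k - 1 - j))
        (∑ j ∈ range k, (T ^ k ^ (l₀ + d)) ^ j * ((2 : ℝ) ^ d • ∑ i ∈ range (k ^ d),
          T ^ (i * k ^ l₀) * B * T ^ ((k ^ d - 1 - i) * k ^ l₀)) *
          (T ^ k ^ (l₀ + d)) ^ (k - 1 - j)) := by
      refine MLe.sum fun j _ => ?_
      refine MLe.mul (MNn.mul (MNn.pow (nF _) j) (nS _)) (MNn.pow hTk _) ?_
        (MLe.pow (nF _) h2 _)
      exact MLe.mul (MNn.pow (nF _) j) hR (MLe.pow (nF _) h2 _) h1
    have h4 : (∑ j ∈ range k, (T ^ k ^ (l₀ + d)) ^ j * ((2 : ℝ) ^ d • ∑ i ∈ range (k ^ d),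
          T ^ (i * k ^ l₀) * B * T ^ ((k ^ d - 1 - i) * k ^ l₀)) *
          (T ^ k ^ (l₀ + d)) ^ (k - 1 - j)) =
        (2 : ℝ) ^ d • ∑ i ∈ range (k ^ (d + 1)),
          T ^ (i * k ^ l₀) * B * T ^ ((k ^ (d + 1) - 1 - i) * k ^ l₀) := by
      have h5 : k ^ (d + 1) = k * k ^ d := by ring
      conv_rhs => rw [h5, sum_range_mul' (M := Matrix X X PS), Finset.smul_sum]
      refine Finset.sum_congr rfl fun j hj => ?_
      rw [Matrix.mul_smul, Matrix.smul_mul, Finset.mul_sum, Finset.sum_mul]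
      refine congrArg (fun Z : Matrix X X PS => (2 : ℝ) ^ d • Z) ?_
      refine Finset.sum_congr rfl fun i hi => ?_
      obtain ⟨e1, e2⟩ := exps k l₀ d i j (Finset.mem_range.1 hi) (Finset.mem_range.1 hj)
      rw [h5] at e2
      have e3 : T ^ ((j * k ^ d + i) * k ^ l₀) = (T ^ k ^ (l₀ + d)) ^ j * T ^ (i * k ^ l₀) := by
        rw [← e1, pow_add T, pow_mul T (k ^ (l₀ + d))]
      have e4 : T ^ ((k * k ^ d - 1 - (j * k ^ d + i)) * k ^ l₀) =
          T ^ ((k ^ d - 1 - i) * k ^ l₀) * (T ^ k ^ (l₀ + d)) ^ (k - 1 - j) := by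
        rw [← e2, pow_add T, pow_mul T (k ^ (l₀ + d))]
      rw [e3, e4]
      simp only [Matrix.mul_assoc]
    rw [h4] at h3
    intro x z
    have h6 := r4 (l₀ + d) x z
    rw [hmkz (l₀ + d + 1) (by omega) x z] at h6
    rw [← add_assoc, h6]
    have h7 : ((0 : DS).snd : PS) = 0 := rfl
    rw [h7, smul_zero, add_zero, pow_succ', mul_smul]
    exact PLe.smul (by norm_num) (h3 x z)

end Pool.Agent.H54.AT
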