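import Pool.Agent.H67.AT.Targets
import Pool.Agent.H67.AT.Ser
import Pool.Agent.H54.AT.PTO
import Pool.Agent.H54.AT.SND

/-!
# Row COR of hat_modules: part B from its parts
-/

set_option autoImplicit false

open Finset PowerSeries Pool.Agent.H67.AT

namespace Pool.Agent.H54.AT

/-- COR: part B. -/
theorem pf_COR (hLVS : T_LVS) (hROT : T_ROT) (hSEL : T_SEL) (hPAR : T_PAR) (hNET : T_NET)
    (hQNN : T_QNN) (hRTU : T_RTU) : T_COR := by
  intro hA L D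
  obtain ⟨g, hg, hA⟩ := hA L D
  obtain ⟨m, ζ, β, hm, hζ, hβ, hη, k1, hk1⟩ := hPAR L D g hg
  obtain ⟨k0, hk0⟩ := hA β hβ
  set θ : ℝ := ζ ^ m / (m.factorial : ℝ) with hθ
  have hθ0 : 0 < θ := by positivity
  set w₀ : ℝ := θ / (16 * 2 ^ (L + 1)) with hw
  have hw0 : 0 < w₀ := by positivity
  refine ⟨16 * 2 ^ (L + 1), max (max k0 k1) 1, fun k hk => ?_⟩
  intro X E Y _ _ _ _ _ _ G s f hX hY hup hum hs hs1 hs2 hf hex
  have hk0' : k0 ≤ k := ((le_max_left _ _).trans (le_max_left _ _)).trans hk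
  have hk1' : k1 ≤ k := ((le_max_right _ _).trans (le_max_left _ _)).trans hk
  have hk1le : 1 ≤ k := (le_max_right _ _).trans hk
  have hsys := hNET X E Y G (k ^ L) (1 / (k : ℝ) ^ 20) hup hum
  obtain ⟨good, g1, g2, g3, g4⟩ := hk0 k hk0' X Y G.P (Mm G) hX hY hsys
  have hG : Good G k L g β good := by
    refine ⟨g1, ?_, g3⟩
    intro l hl x x' hgd
    refine le_trans (le_of_eq ?_) (g2 l hl x x' hgd)
    refine Finset.sum_congr rfl fun y _ => ?_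
    unfold rho
    by_cases h : β ≤ uses G.P (Mm G) (k ^ l) x x' y
    · rw [if_pos h, if_pos ⟨hgd, h⟩]
    · rw [if_neg h, if_neg fun h' => h h'.2]
  have hrot := hROT X E Y G k L m g β (1 / (k : ℝ) ^ 20) w₀ good f s hk1le hβ hg (by positivity)
    hw0.le hf hs hs1 hG hsys
  set Ψ : X → X → ℝ := fun x x' => ∑ τ : Idx X L, wgt w₀ τ *
    coeff (deg m τ) (qq G k good β f τ L x x').snd with hΨ
  have hΨ8 : ∑ x, ∑ x', s x * (G.P ^ k ^ L) x x' * Ψ x x' ≤ θ / 8 := by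
    refine hrot.trans ?_
    have h1 := hk1 k hk1'
    have h2 : ((Fintype.card X : ℕ) : ℝ) ≤ (k : ℝ) ^ D := by exact_mod_cast hX
    have hg0 : 0 ≤ g := by linarith
    have h3 : ((L : ℝ) + 1) * (Fintype.card X) *
        ((2 : ℝ) ^ L * (k : ℝ) ^ L * ((m + 1) * ((2 : ℝ) ^ (L + 1) * (1 / (k : ℝ) ^ 20) *
          (k * g)) ^ m)) ≤ θ / 16 := by
      refine le_trans ?_ h1
      gcongr
    have h4 : w₀ * ((2 : ℝ) ^ (L + 1) * G.ex s (k ^ L) f) ≤ w₀ * ((2 : ℝ) ^ (L + 1) * 1) := by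
      gcongr
    have h5 : w₀ * ((2 : ℝ) ^ (L + 1) * 1) = θ / 16 := by
      rw [hw]
      field_simp
    linarith
  have hQ : ∀ x x', 0 ≤ (G.P ^ k ^ L) x x' := fun x x' => SND.P_nonneg G _ x x'
  have hΨ0 : ∀ x x', 0 < (G.P ^ k ^ L) x x' → 0 ≤ Ψ x x' := by
    intro x x' _
    refine Finset.sum_nonneg fun τ _ => mul_nonneg ?_ ?_
    · rcases τ with _ | τ
      · exact hw0.le
      · exact zero_le_one
    · exact ((hQNN X E Y G k (es G k good β f τ) (mks τ) (PTO.es_nn G k hRTU good hβ hf _)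
        (PTO.mks_nn _)).1 L x x').2 _
  obtain ⟨x, x', hx, -, hgd, hlt⟩ := hSEL X s (fun x x' => (G.P ^ k ^ L) x x') Ψ (good L) θ hθ0
    hs hs1 hQ hΨ0 hs2 g4 hΨ8
  obtain ⟨l, l1, l2, l3, l4, l5⟩ := hLVS X E Y G k L m g β w₀ ζ good f hk1le hβ hg hw0.le hm hζ hf
    hG hη x x' hgd hlt
  refine ⟨l, l1, l2, ?_, l4, ?_⟩
  · intro e he
    rw [l3 e he]
    exact hx
  · have h1 : w₀ * (16 * 2 ^ (L + 1)) = θ := by
      rw [hw]
      field_simp
    have h2 : w₀ * (l.map f).sum ≤ w₀ * (16 * 2 ^ (L + 1)) := by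
      rw [h1]
      exact l5
    exact le_of_mul_le_mul_left h2 hw0

end Pool.Agent.H54.AT
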