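import Pool.Agent.H67.AT.Targets

/-!
# Row SVL of hat_modules: the stage `stg` is valid
-/

set_option autoImplicit false

open Finset PowerSeries Pool.Agent.H67.AT

namespace Pool.Agent.H54.AT

/-- SVL: the stage `stg` is valid. -/
theorem pf_SVL (hMU1 : T_MU1) (hRTU : T_RTU) : T_SVL := by
  classical
  intro X E Y _ _ _ _ _ _ G k L g β η good hβ hG l hl N ω hgood hpair
  have hP : ∀ j < N, 0 < (G.P ^ k ^ (l + 1)) (ω j) (ω (j + 1)) := fun j hj =>
    hG.pos (l + 1) hl _ _ (hgood j hj)
  have hclash : ∀ (a a' b b' : X) (y : Y), rho G k good β l a a' y * rho G k good β l b b' y ≠ 0 →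
      Clash G.P (Mm G) (k ^ l) β a a' b b' := by
    intro a a' b b' y hne
    have h1 : rho G k good β l a a' y ≠ 0 := left_ne_zero_of_mul hne
    have h2 : rho G k good β l b b' y ≠ 0 := right_ne_zero_of_mul hne
    unfold rho at h1 h2
    refine ⟨y, ?_, ?_⟩
    · by_contra hc
      exact h1 (if_neg fun h => hc h.2)
    · by_contra hc
      exact h2 (if_neg fun h => hc h.2)
  refine ⟨?_, ?_, ?_, ?_, ?_, ?_, ?_, ?_, ?_, hpair⟩
  · intro j hj r
    exact ((hMU1 X E Y G k l _ _ (hP j hj)).2 r).1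
  · intro j hj
    exact (hMU1 X E Y G k l _ _ (hP j hj)).1
  · intro j hj y
    exact (hRTU X E Y G k good β (l + 1) _ _ y hβ).1
  · intro r i y
    exact (hRTU X E Y G k good β l _ _ y hβ).1
  · intro j hj y
    obtain ⟨-, -, -, h4, h5⟩ := hRTU X E Y G k good β (l + 1) (ω j) (ω (j + 1)) y hβ
    exact (h4 (hP j hj)).trans (h5 (hgood j hj))
  · intro j hj
    exact hG.mass (l + 1) hl _ _ (hgood j hj)
  · intro r i hacc
    exact hG.mass l hl.le _ _ (hacc.1 i)
  · intro r hacc i i' hii
    refine Finset.sum_eq_zero fun y _ => ?_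
    by_contra hne
    rcases lt_or_gt_of_ne hii with h | h
    · exact hacc.2 i i' h (hclash _ _ _ _ y hne)
    · refine hacc.2 i' i h (hclash _ _ _ _ y ?_)
      rw [mul_comm]
      exact hne
  · intro j hj
    have h1 := hG.fail l hl (ω j) (ω (j + 1)) (hgood j hj)
    refine le_trans (le_of_eq (?_ : _ = failw G.P (Mm G) k (k ^ l) β (good l) (ω j) (ω (j + 1)) /
      (G.P ^ k ^ (l + 1)) (ω j) (ω (j + 1)))) ?_
    · unfold failw
      rw [Finset.sum_div]
      refine Finset.sum_congr rfl fun s _ => ?_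
      by_cases hacc : (stg G k good β l N ω).acc s
      · rw [if_pos hacc, if_neg, zero_div]
        rintro ⟨-, -, h3⟩
        obtain ⟨h4, h5⟩ := hacc
        rcases h3 with ⟨i, hi⟩ | ⟨i, j', hij, hc⟩
        · exact hi (h4 i)
        · exact h5 i j' hij hc
      · rw [if_neg hacc]
        change mu G k l (ω j) (ω (j + 1)) s = _
        unfold mu
        by_cases he : s 0 = ω j ∧ s (Fin.last k) = ω (j + 1)
        · rw [if_pos he, if_pos]
          refine ⟨he.1, he.2, ?_⟩
          by_contra hc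
          rw [not_or] at hc
          apply hacc
          refine ⟨fun i => ?_, fun i j' hij hcl => hc.2 ⟨i, j', hij, hcl⟩⟩
          by_contra hg
          exact hc.1 ⟨i, hg⟩
        · rw [if_neg he, if_neg, zero_div]
          rintro ⟨h3, h4, -⟩
          exact he ⟨h3, h4⟩
    · rw [div_le_iff₀ (hP j hj)]
      exact h1

end Pool.Agent.H54.AT
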